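import Pool.Agent.Helper4.TL.StD
import Pool.Agent.Helper16.W5.M_Trm

/-!
# Project TL, module Itr: iteration of the leading forms
-/

set_option autoImplicit false

namespace Pool.Agent.Helper19.TL

open Pool.Agent.Helper4.TL
open Pool.Agent.Helper14.CV (Homog EqC act Tl)
open Pool.Agent.Helper28.WK (Tw evw)
open Pool.Agent.Helper14.W5 (e5 tr5 Fn5 Tm opL op5 mulL mulT sclL Gd mmL idL Wd5 Lw Qo dX dY rY5 edge5 S5Trm S5Low0)

private theorem hTrm5 : S5Trm := Pool.Agent.Helper16.W5.hTrm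

section lists

variable {q q' : ℕ}

private theorem opL_nil : (opL [] : Module.End (ZMod 5) (Fn5 q q')) = 0 := rfl

private theorem opL_cons (t : Tm) (L : List Tm) : (opL (t :: L) : Module.End (ZMod 5) (Fn5 q q')) =
    ((t.1 : ℤ) : ZMod 5) • op5 t.2.1 t.2.2.1 t.2.2.2.1 t.2.2.2.2 + opL L := by
  unfold opL
  rw [List.map_cons, List.sum_cons]

private theorem opL_append (L L' : List Tm) :
    (opL (L ++ L') : Module.End (ZMod 5) (Fn5 q q')) = opL L + opL L' := by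
  unfold opL
  rw [List.map_append, List.sum_append]

private theorem opL_scl (n : ℤ) (L : List Tm) :
    (opL (sclL n L) : Module.End (ZMod 5) (Fn5 q q')) = ((n : ℤ) : ZMod 5) • opL L := by
  induction L with
  | nil => rw [show sclL n [] = [] from rfl, opL_nil, smul_zero]
  | cons t L ih =>
    rw [show sclL n (t :: L) = (n * t.1, t.2) :: sclL n L from rfl, opL_cons, opL_cons, ih, smul_add, smul_smul]
    push_cast
    rfl

end lists

private theorem ndvd {a : ℤ} (h : a % 5 ≠ 0) : ¬ 5 ∣ a := fun h' => h (Int.emod_eq_zero_of_dvd h')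

private theorem op5_mul {r s : ℕ} {t t' : Tm} (h : Gd t) (h' : Gd t') :
    (op5 t.2.1 t.2.2.1 t.2.2.2.1 t.2.2.2.2 * op5 t'.2.1 t'.2.2.1 t'.2.2.2.1 t'.2.2.2.2 :
      Module.End (ZMod 5) (Fn5 (5 ^ r) (5 ^ s))) =
    op5 (mulT t t').2.1 (mulT t t').2.2.1 (mulT t t').2.2.2.1 (mulT t t').2.2.2.2 := by
  apply LinearMap.ext
  intro F
  exact (hTrm5 (ZMod 5) r s F).1 t.2.1 t.2.2.1 t.2.2.2.1 t.2.2.2.2 t'.2.1 t'.2.2.1 t'.2.2.2.1 t'.2.2.2.2
    (ndvd h.1) (ndvd h.2) (ndvd h'.1) (ndvd h'.2)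

private theorem opL_mulT {r s : ℕ} {t : Tm} (h : Gd t) (L' : List Tm) (h' : ∀ t' ∈ L', Gd t') :
    (opL (L'.map fun t' => mulT t t') : Module.End (ZMod 5) (Fn5 (5 ^ r) (5 ^ s))) =
    (((t.1 : ℤ) : ZMod 5) • op5 t.2.1 t.2.2.1 t.2.2.2.1 t.2.2.2.2) * opL L' := by
  induction L' with
  | nil => rw [List.map_nil, opL_nil, mul_zero]
  | cons a L' ih =>
    rw [List.map_cons, opL_cons, opL_cons, ih (fun t' ht' => h' t' (List.mem_cons_of_mem _ ht')), mul_add,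
      smul_mul_smul_comm, op5_mul h (h' a List.mem_cons_self)]
    have e : (((mulT t a).1 : ℤ) : ZMod 5) = ((t.1 : ℤ) : ZMod 5) * ((a.1 : ℤ) : ZMod 5) := by
      unfold mulT
      push_cast
      rfl
    rw [e]

private theorem opL_mul {r s : ℕ} (L L' : List Tm) (h : ∀ t ∈ L, Gd t) (h' : ∀ t' ∈ L', Gd t') :
    (opL (mulL L L') : Module.End (ZMod 5) (Fn5 (5 ^ r) (5 ^ s))) = opL L * opL L' := by
  induction L with
  | nil => exact (zero_mul _).symm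
  | cons a L ih =>
    have e : mulL (a :: L) L' = (L'.map fun t' => mulT a t') ++ mulL L L' := rfl
    rw [e, opL_append, opL_mulT (h a List.mem_cons_self) L' h', ih (fun t ht => h t (List.mem_cons_of_mem _ ht)),
      opL_cons, add_mul]

private theorem gdT3 : ∀ i f : Fin 2, ∀ t ∈ T3E i f, Gd t := by decide

private theorem gdT7 : ∀ i f : Fin 2, ∀ t ∈ T7E i f, Gd t := by decide

private theorem mm_apply {r s : ℕ} (A B : Fin 2 → Fin 2 → List Tm) (hA : ∀ i f, ∀ t ∈ A i f, Gd t)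
    (hB : ∀ i f, ∀ t ∈ B i f, Gd t) (F : Fin 2 → Fn5 (5 ^ r) (5 ^ s)) (i : Fin 2) :
    ∑ g : Fin 2, opL (A i g) (∑ f : Fin 2, opL (B g f) (F f)) = ∑ f : Fin 2, opL (mmL A B i f) (F f) := by
  simp only [Fin.sum_univ_two, mmL, opL_append, opL_mul _ _ (hA _ _) (hB _ _), LinearMap.add_apply,
    Module.End.mul_apply, map_add]
  abel

private theorem op5_one {r s : ℕ} (F : Fn5 (5 ^ r) (5 ^ s)) : op5 1 0 0 1 F = F :=
  (hTrm5 (ZMod 5) r s F).2.1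

private theorem id_apply' {r s : ℕ} (c : ℤ) (F : Fin 2 → Fn5 (5 ^ r) (5 ^ s)) (i : Fin 2) :
    ∑ f : Fin 2, opL (idL c i f) (F f) = ((c : ℤ) : ZMod 5) • F i := by
  have h1 : ∀ f, opL (idL c f f) (F f) = ((c : ℤ) : ZMod 5) • F f := by
    intro f
    rw [show idL c f f = [(c, 1, 0, 0, 1)] from if_pos rfl, opL_cons, opL_nil, add_zero, LinearMap.smul_apply,
      op5_one]
  have h2 : ∀ f g, f ≠ g → opL (idL c f g) (F g) = 0 := by
    intro f g hfg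
    rw [show idL c f g = [] from if_neg hfg, opL_nil, LinearMap.zero_apply]
  fin_cases i
  · show ∑ f : Fin 2, opL (idL c 0 f) (F f) = _
    rw [Fin.sum_univ_two, h1 0, h2 0 1 (by decide), add_zero]
    rfl
  · show ∑ f : Fin 2, opL (idL c 1 f) (F f) = _
    rw [Fin.sum_univ_two, h1 1, h2 1 0 (by decide), zero_add]
    rfl

section

variable {r s : ℕ}

/-- the two functions -/
private noncomputable def P (r s : ℕ) (G : ℤ → ℤ → ZMod 5) (f : Fin 2) : Fn5 (5 ^ r) (5 ^ s) := pfE G f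

private theorem P_add (G H : ℤ → ℤ → ZMod 5) (f : Fin 2) : P r s (G + H) f = P r s G f + P r s H f := by
  funext x y
  simp only [P, pfE, edgeE, edge5, Pi.add_apply, zsmul_eq_mul]
  ring

private theorem P_sub (G H : ℤ → ℤ → ZMod 5) (f : Fin 2) : P r s (G - H) f = P r s G f - P r s H f := by
  funext x y
  simp only [P, pfE, edgeE, edge5, Pi.sub_apply, zsmul_eq_mul]
  ring

private theorem P_two (G : ℤ → ℤ → ZMod 5) (f : Fin 2) :
    P r s ((2 : ℤ) • G) f = (2 : ZMod 5) • P r s G f := by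
  funext x y
  simp only [P, pfE, edgeE, edge5, Pi.smul_apply, smul_eq_mul, zsmul_eq_mul]
  push_cast
  ring

private theorem sym3 (hb : THkB) {G : ℤ → ℤ → ZMod 5} (hG : SymE 5 r (s + 1) G) :
    SymE 5 r (s + 1) (Tl 3 (2 * 5 ^ r) G) :=
  (hb (ZMod 5) _ r (s + 1) 3 G (by norm_num) (by norm_num) (by norm_num) hG).1

private theorem sym7 (hb : THkB) {G : ℤ → ℤ → ZMod 5} (hG : SymE 5 r (s + 1) G) :
    SymE 5 r (s + 1) (Tl 7 (2 * 5 ^ r) G) :=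
  (hb (ZMod 5) _ r (s + 1) 7 G (by norm_num) (by norm_num) (by norm_num) hG).1

private theorem P3 (h3 : THk3) {G : ℤ → ℤ → ZMod 5} (hG : SymE 5 r (s + 1) G) (i : Fin 2) :
    P r s (Tl 3 (2 * 5 ^ r) G) i = ∑ f : Fin 2, opL (T3E i f) (P r s G f) := h3 r s G hG i

private theorem P7 (h7 : THk7) {G : ℤ → ℤ → ZMod 5} (hG : SymE 5 r (s + 1) G) (i : Fin 2) :
    P r s (Tl 7 (2 * 5 ^ r) G) i = ∑ f : Fin 2, opL (T7E i f) (P r s G f) := h7 r s G hG i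

private theorem P33 (hb : THkB) (h3 : THk3) {G : ℤ → ℤ → ZMod 5} (hG : SymE 5 r (s + 1) G)
    (i : Fin 2) : P r s (Tl 3 (2 * 5 ^ r) (Tl 3 (2 * 5 ^ r) G)) i =
      ∑ f : Fin 2, opL (mmL T3E T3E i f) (P r s G f) := by
  rw [P3 h3 (sym3 hb hG) i, ← mm_apply T3E T3E gdT3 gdT3 (P r s G) i]
  simp_rw [P3 h3 hG]

private theorem P37 (hb : THkB) (h3 : THk3) (h7 : THk7) {G : ℤ → ℤ → ZMod 5}
    (hG : SymE 5 r (s + 1) G) (i : Fin 2) :
    P r s (Tl 3 (2 * 5 ^ r) (Tl 7 (2 * 5 ^ r) G)) i = ∑ f : Fin 2, opL (mmL T3E T7E i f) (P r s G f) := by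
  rw [P3 h3 (sym7 hb hG) i, ← mm_apply T3E T7E gdT3 gdT7 (P r s G) i]
  simp_rw [P7 h7 hG]

private theorem P77 (hb : THkB) (h7 : THk7) {G : ℤ → ℤ → ZMod 5} (hG : SymE 5 r (s + 1) G)
    (i : Fin 2) : P r s (Tl 7 (2 * 5 ^ r) (Tl 7 (2 * 5 ^ r) G)) i =
      ∑ f : Fin 2, opL (mmL T7E T7E i f) (P r s G f) := by
  rw [P7 h7 (sym7 hb hG) i, ← mm_apply T7E T7E gdT7 gdT7 (P r s G) i]
  simp_rw [P7 h7 hG]

private theorem symU (hb : THkB) {G : ℤ → ℤ → ZMod 5} (hG : SymE 5 r (s + 1) G) :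
    SymE 5 r (s + 1) (UoE (2 * 5 ^ r) G) := SymE.add (sym3 hb (sym3 hb hG)) hG

private theorem symSub {G H : ℤ → ℤ → ZMod 5} (hG : SymE 5 r (s + 1) G) (hH : SymE 5 r (s + 1) H) :
    SymE 5 r (s + 1) (G - H) := by
  rw [sub_eq_add_neg]
  exact SymE.add hG (SymE.neg hH)

private theorem symV (hb : THkB) {G : ℤ → ℤ → ZMod 5} (hG : SymE 5 r (s + 1) G) :
    SymE 5 r (s + 1) (VoE (2 * 5 ^ r) G) :=
  symSub (symSub (sym7 hb (sym7 hb hG)) (SymE.smul _ (sym3 hb (sym7 hb hG)))) (SymE.smul _ hG)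

private theorem PU (hb : THkB) (h3 : THk3) {G : ℤ → ℤ → ZMod 5} (hG : SymE 5 r (s + 1) G)
    (i : Fin 2) : P r s (UoE (2 * 5 ^ r) G) i = ∑ f : Fin 2, opL (ULE i f) (P r s G f) := by
  have e := id_apply' 1 (P r s G) i
  have e1 : P r s (UoE (2 * 5 ^ r) G) i = P r s (Tl 3 (2 * 5 ^ r) (Tl 3 (2 * 5 ^ r) G)) i + P r s G i :=
    P_add _ _ i
  rw [e1, P33 hb h3 hG i]
  simp only [ULE, opL_append, LinearMap.add_apply, Finset.sum_add_distrib]
  rw [e, Int.cast_one, one_smul]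

private theorem PV (hb : THkB) (h3 : THk3) (h7 : THk7) {G : ℤ → ℤ → ZMod 5}
    (hG : SymE 5 r (s + 1) G) (i : Fin 2) :
    P r s (VoE (2 * 5 ^ r) G) i = ∑ f : Fin 2, opL (VLE i f) (P r s G f) := by
  have e := id_apply' (-2) (P r s G) i
  have e1 : P r s (VoE (2 * 5 ^ r) G) i = P r s (Tl 7 (2 * 5 ^ r) (Tl 7 (2 * 5 ^ r) G)) i -
      (2 : ZMod 5) • P r s (Tl 3 (2 * 5 ^ r) (Tl 7 (2 * 5 ^ r) G)) i - (2 : ZMod 5) • P r s G i := by
    unfold VoE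
    rw [P_sub, P_sub, P_two, P_two]
  rw [e1, P77 hb h7 hG i, P37 hb h3 h7 hG i]
  simp only [VLE, opL_append, opL_scl, LinearMap.add_apply, LinearMap.smul_apply, Finset.sum_add_distrib,
    ← Finset.smul_sum]
  rw [e]
  push_cast
  rw [neg_smul, neg_smul]
  abel

private theorem PO (hb : THkB) (h3 : THk3) {G : ℤ → ℤ → ZMod 5} (hG : SymE 5 r (s + 1) G) :
    P r s (OoE (2 * 5 ^ r) G) 0 = ∑ f : Fin 2, opL (OLE f) (P r s G f) := by
  have e := id_apply' (-1) (P r s G) 0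
  have e1 : P r s (OoE (2 * 5 ^ r) G) 0 = P r s (Tl 3 (2 * 5 ^ r) (Tl 3 (2 * 5 ^ r) G)) 0 -
      P r s (Tl 3 (2 * 5 ^ r) G) 0 - P r s G 0 := by
    unfold OoE
    rw [P_sub, P_sub]
  rw [e1, P33 hb h3 hG 0, P3 h3 hG 0]
  simp only [OLE, opL_append, opL_scl, LinearMap.add_apply, LinearMap.smul_apply, Finset.sum_add_distrib,
    ← Finset.smul_sum]
  rw [e]
  push_cast
  rw [neg_smul, neg_smul, one_smul, one_smul]
  abel

private theorem lw_pow (hl : S5Low0) {O : Module.End (ZMod 5) (Fn5 (5 ^ r) (5 ^ s))} {k : ℤ} (hO : Lw O k) (n : ℕ) :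
    Lw (O ^ n) (k * n) := by
  obtain ⟨hm, -, -, -, -, h1, -⟩ := hl r s
  induction n with
  | zero => simpa using h1
  | succ n ih =>
    rw [pow_succ]
    have := hm _ _ _ _ ih hO
    rwa [show k * n + k = k * (n + 1 : ℕ) by push_cast; ring] at this

private theorem lw_Qo (hl : S5Low0) : Lw (Qo : Module.End (ZMod 5) (Fn5 (5 ^ r) (5 ^ s))) 2 := by
  obtain ⟨hm, -, hc, -, -, -, hx, hy, -⟩ := hl r s
  have h1 := hc _ 2 _ (hm _ _ _ _ hx hy)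
  norm_num at h1
  exact h1

private theorem lw_LoE (hl : S5Low0) : Lw (LoE : Module.End (ZMod 5) (Fn5 (5 ^ r) (5 ^ s))) 6 := by
  obtain ⟨hm, ha, hc, -, -, -, hx, hy, -⟩ := hl r s
  have x4 := lw_pow hl hx 4
  have y4 := lw_pow hl hy 4
  have h := hc _ 4 _ (hm _ _ _ _ (hm _ _ _ _ hx hy) (ha _ _ _ x4 y4))
  norm_num at h
  exact h

private theorem lw_MoE (hl : S5Low0) : Lw (MoE : Module.End (ZMod 5) (Fn5 (5 ^ r) (5 ^ s))) 2 := by
  obtain ⟨-, ha, hc, -, -, -, hx, hy, -⟩ := hl r s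
  have x2 := lw_pow hl hx 2
  have y2 := lw_pow hl hy 2
  norm_num at x2 y2
  exact hc _ 3 _ (ha _ _ _ x2 y2)

private theorem stepL (hl : S5Low0) {O : Module.End (ZMod 5) (Fn5 (5 ^ r) (5 ^ s))} {k e : ℤ} (hO : Lw O k)
    {F H F' : Fn5 (5 ^ r) (5 ^ s)} (hF : F ∈ Wd5 e) (hH : F - H ∈ Wd5 (e - 1)) (hF' : F' - O F ∈ Wd5 (e - k - 1)) :
    F' ∈ Wd5 (e - k) ∧ F' - O H ∈ Wd5 (e - k - 1) := by
  have hmono := (hl r s).2.2.2.2.1
  have h1 : O F ∈ Wd5 (e - k) := hO e F hF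
  have h2 : O (F - H) ∈ Wd5 (e - k - 1) := by
    have := hO (e - 1) _ hH
    rwa [show e - 1 - k = e - k - 1 by ring] at this
  constructor
  · have h3 := Submodule.add_mem _ (hmono _ _ (by linarith) hF') h1
    rwa [sub_add_cancel] at h3
  · have h3 := Submodule.add_mem _ hF' h2
    rwa [map_sub, sub_add_sub_cancel] at h3

/-- the state -/
private def St (r s : ℕ) (e : ℤ) (G : ℤ → ℤ → ZMod 5) (H : Fn5 (5 ^ r) (5 ^ s)) : Prop :=
  SymE 5 r (s + 1) G ∧ P r s G 0 ∈ Wd5 e ∧ P r s G 1 ∈ Wd5 e ∧ P r s G 0 - H ∈ Wd5 (e - 1)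

private theorem stU (hr : TRel) (hb : THkB) (h3 : THk3) (hl : S5Low0) (hu : TLdU)
    {e : ℤ} {G : ℤ → ℤ → ZMod 5} {H : Fn5 (5 ^ r) (5 ^ s)} (h : St r s e G H) :
    St r s (e - 2) (UoE (2 * 5 ^ r) G) (Qo H) := by
  obtain ⟨hG, hF0, hF1, hH⟩ := h
  have hR : RelE (P r s G) := hr (ZMod 5) _ r s G hG
  obtain ⟨l1, l2⟩ := hu r s e (P r s G) hR hF0 hF1
  rw [← PU hb h3 hG 0, show e - 3 = e - 2 - 1 by ring] at l1
  rw [← PU hb h3 hG 1] at l2
  obtain ⟨m1, m2⟩ := stepL hl (lw_Qo hl) hF0 hH l1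
  exact ⟨symU hb hG, m1, l2, m2⟩

private theorem stV (hr : TRel) (hb : THkB) (h3 : THk3) (h7 : THk7) (hl : S5Low0) (hv : TLdV)
    {e : ℤ} {G : ℤ → ℤ → ZMod 5} {H : Fn5 (5 ^ r) (5 ^ s)} (h : St r s e G H) :
    St r s (e - 6) (VoE (2 * 5 ^ r) G) (LoE H) := by
  obtain ⟨hG, hF0, hF1, hH⟩ := h
  have hR : RelE (P r s G) := hr (ZMod 5) _ r s G hG
  obtain ⟨l1, l2⟩ := hv r s e (P r s G) hR hF0 hF1
  rw [← PV hb h3 h7 hG 0, show e - 7 = e - 6 - 1 by ring] at l1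
  rw [← PV hb h3 h7 hG 1] at l2
  obtain ⟨m1, m2⟩ := stepL hl (lw_LoE hl) hF0 hH l1
  exact ⟨symV hb hG, m1, l2, m2⟩

private theorem itU (hr : TRel) (hb : THkB) (h3 : THk3) (hl : S5Low0) (hu : TLdU)
    {e : ℤ} {G : ℤ → ℤ → ZMod 5} {H : Fn5 (5 ^ r) (5 ^ s)} (h : St r s e G H) (i : ℕ) :
    St r s (e - 2 * i) ((UoE (2 * 5 ^ r))^[i] G) ((Qo ^ i : Module.End (ZMod 5) (Fn5 (5 ^ r) (5 ^ s))) H) := by
  induction i with
  | zero => simpa using h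
  | succ i ih =>
    have h4 := stU hr hb h3 hl hu ih
    have hp : (Qo ^ (i + 1) : Module.End (ZMod 5) (Fn5 (5 ^ r) (5 ^ s))) = Qo * Qo ^ i := pow_succ' _ _
    have e2 : e - 2 * ((i + 1 : ℕ) : ℤ) = e - 2 * i - 2 := by push_cast; ring
    rw [Function.iterate_succ_apply', hp, e2]
    exact h4

private theorem itV (hr : TRel) (hb : THkB) (h3 : THk3) (h7 : THk7) (hl : S5Low0) (hv : TLdV)
    {e : ℤ} {G : ℤ → ℤ → ZMod 5} {H : Fn5 (5 ^ r) (5 ^ s)} (h : St r s e G H) (j : ℕ) :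
    St r s (e - 6 * j) ((VoE (2 * 5 ^ r))^[j] G) ((LoE ^ j : Module.End (ZMod 5) (Fn5 (5 ^ r) (5 ^ s))) H) := by
  induction j with
  | zero => simpa using h
  | succ j ih =>
    have h4 := stV hr hb h3 h7 hl hv ih
    have hp : (LoE ^ (j + 1) : Module.End (ZMod 5) (Fn5 (5 ^ r) (5 ^ s))) = LoE * LoE ^ j := pow_succ' _ _
    have e2 : e - 6 * ((j + 1 : ℕ) : ℤ) = e - 6 * j - 6 := by push_cast; ring
    rw [Function.iterate_succ_apply', hp, e2]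
    exact h4

private theorem P_zero (G : ℤ → ℤ → ZMod 5) : P r s G 0 0 0 = G 1 0 - G 0 1 := by
  have hY : rY5 0 (0 : ZMod (5 ^ r)) (0 : ZMod (5 ^ s)) = 0 := by
    unfold rY5
    simp
  have hX : (((0 : ZMod (5 ^ r)).val : ℕ) : ℤ) = 0 := by simp
  have hs : sgE 0 (0 : ZMod (5 ^ r)) (0 : ZMod (5 ^ s)) = 1 := by
    unfold sgE
    rw [hY, hX]
    norm_num
    exact eps_one
  unfold P pfE edgeE edge5
  rw [hs, hY, hX]
  simp [e5]

end

/-- **ITR.** -/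
theorem hItr (hr : TRel) (hb : THkB) (h3 : THk3) (h7 : THk7) (hl : S5Low0) (hu : TLdU) (hv : TLdV)
    (ho : TOm) : TItr := by
  intro r s G d hG hF0 hF1 i j
  have hmono := (hl r s).2.2.2.2.1
  have hz : ∀ F : Fn5 (5 ^ r) (5 ^ s), F ∈ Wd5 (-1) → F = 0 :=
    (hl r s).2.2.2.2.2.2.2.2.2.2.2.2.2
  have h0 : St r s (d : ℤ) G (P r s G 0) := by
    refine ⟨hG, hF0, hF1, ?_⟩
    rw [sub_self]
    exact Submodule.zero_mem _
  have hK := itU hr hb h3 hl hu (itV hr hb h3 h7 hl hv h0 j) i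
  set K : ℤ → ℤ → ZMod 5 := (UoE (2 * 5 ^ r))^[i] ((VoE (2 * 5 ^ r))^[j] G) with hKd
  set H : Fn5 (5 ^ r) (5 ^ s) := (Qo ^ i : Module.End (ZMod 5) (Fn5 (5 ^ r) (5 ^ s)))
    ((LoE ^ j : Module.End (ZMod 5) (Fn5 (5 ^ r) (5 ^ s))) (P r s G 0)) with hHd
  obtain ⟨kG, k0, k1, kH⟩ := hK
  have ev0 : evE (2 * 5 ^ r) G 0 i j = P r s K 0 0 0 := by
    rw [P_zero]
    rfl
  have ev1 : evE (2 * 5 ^ r) G 1 i j = P r s (OoE (2 * 5 ^ r) K) 0 0 0 := by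
    rw [P_zero]
    rfl
  have kR : RelE (P r s K) := hr (ZMod 5) _ r s K kG
  have evM : (d : ℤ) - 6 * j - 2 * i ≤ 2 → evE (2 * 5 ^ r) G 1 i j = MoE (P r s K 0) 0 0 := by
    intro h4
    rw [ev1, PO hb h3 kG]
    exact ho r s (P r s K) kR (hmono _ _ h4 k0) (hmono _ _ h4 k1)
  refine ⟨fun hlt => ?_, fun heq => ?_, fun hlt => ?_, fun heq => ?_⟩
  · have h1 := hz _ (hmono _ (-1) (by
      have : (d : ℤ) < 2 * i + 6 * j := by exact_mod_cast hlt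
      linarith) k0)
    rw [ev0, h1]
    rfl
  · have h1 := hz _ (hmono _ (-1) (by
      have : (2 * i + 6 * j : ℤ) = d := by exact_mod_cast heq
      linarith) kH)
    rw [ev0, sub_eq_zero.1 h1]
    rfl
  · have hlt' : (d : ℤ) < 2 * i + 6 * j + 2 := by exact_mod_cast hlt
    have h1 := hz _ (hmono _ (-1) (by linarith) (lw_MoE hl _ _ k0))
    rw [evM (by linarith), h1]
    rfl
  · have heq' : (2 * i + 6 * j + 2 : ℤ) = d := by exact_mod_cast heq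
    have h1 := hz _ (hmono _ (-1) (by linarith) (lw_MoE hl _ _ kH))
    rw [map_sub] at h1
    rw [evM (by linarith), sub_eq_zero.1 h1]
    rfl

end Pool.Agent.Helper19.TL
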